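import Mathlib
import Pool.Agent.R826.LehA
import Pool.Agent.R826.FrobN

/-!
# Lehmer's problem with few roots outside the unit circle: Frobenius and inertia automorphisms

Let `P` be a monic irreducible polynomial with integer coefficients, and `s(P)` the number of its
roots outside the unit circle.  The theorem gives a gap for the Mahler measure of `P` above `1`, which
depends only on a bound for `s(P) [L : ℚ(α)]`, if a root `α` of `P` lies in a number field `L` of any
degree `d` with an automorphism which, for a bounded prime number `p` and a bounded power `q > 1` of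
`p`, is `x ↦ x ^ q` on the residue fields of `L` above `p`, or with more than `s(P) [L : ℚ(α)]`
automorphisms which are generated by automorphisms acting trivially on the residue fields of `L`
above some bounded prime numbers.  Exceptional primes above `p` are allowed, if the sum of their
residue degrees is at most `c d / log (2 d)`.  There is no condition on ramification indices, nor on
the residue degrees.  In a second case, a congruence modulo an ideal of norm at least `B ^ d`, no
bound for `s(P)` is used.

Method.  This is the case of `1` by `1` matrices of the theorem of this project on arithmetic groups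
(`Pool.Agent.R826.FrobL` and `Pool.Agent.R826.FrobO`).  Let `W t = α ^ (q p ^ t) - (φ α) ^ (p ^ t)`, or
`W t = α ^ (p ^ t) - (τ α) ^ (p ^ t)`, and let `I` be the product of the primes above `p` which are not
exceptional.  Then `W t` is `0` modulo `I ^ (t + 1)`.  If it is not zero its norm is large, and this
gives a lower bound for `M(P)` if the norm of `I` is at least `p ^ (C d / log (2 d))`, for `p ^ t` of
the order of `d`.  If the norm of `I` is smaller, the sum of all residue degrees above `p` is at most
`(c + C) d / log (2 d)`, and the bound of the starting files for such fields applies.  If `W t = 0`,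
then in the first case `α` is a root of unity, and in the second case the set of the embeddings `σ` of
`L` with `|σ α| > 1`, which has `s(P) [L : ℚ(α)]` elements, is invariant under `τ`.
-/

set_option autoImplicit false

namespace Pool.Agent.Results.MP_30f4fc_nt.FrobeniusAndInertia

open Polynomial NumberField Module IntermediateField Pool.Agent.R826.Frob Pool.Agent.R826.Leh

/-- The number `s(P)` of the complex roots of `P` outside the closed unit disk, with multiplicity. -/
noncomputable def numOutside (P : ℤ[X]) : ℕ :=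
  Multiset.card ((P.map (Int.castRingHom ℂ)).roots.filter (fun z : ℂ => 1 < ‖z‖))

/-- The number field `L` of degree `d` has an automorphism `φ` such that for a prime number `p` and a
power `q = p ^ a`, `1 < q ≤ Q`, the sum of the residue degrees of the prime ideals of `L` above `p`
modulo which `φ` is not the map `x ↦ x ^ q` (this sum is `badDegree p q φ`) is at most
`c d / log (2 d)`. -/
def FrobeniusAbove (c : ℝ) (Q : ℕ) (L : Type) [Field L] [NumberField L] : Prop :=
  ∃ (p a : ℕ) (φ : L ≃+* L), p.Prime ∧ 0 < a ∧ p ^ a ≤ Q ∧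
    (badDegree p (p ^ a) φ : ℝ) * Real.log (2 * finrank ℚ L) ≤ c * finrank ℚ L

/-- There is a prime number `p ≤ Q` such that the sum of the residue degrees of the prime ideals of
`L` above `p` modulo which `τ` is not the identity (this sum is `badDegree p 1 τ`) is at most
`c d / log (2 d)`, where `d = [L : ℚ]`. -/
def InertiaAbove (c : ℝ) (Q : ℕ) {L : Type} [Field L] [NumberField L] (τ : RingAut L) : Prop :=
  ∃ p : ℕ, p.Prime ∧ p ≤ Q ∧
    (badDegree p 1 τ : ℝ) * Real.log (2 * finrank ℚ L) ≤ c * finrank ℚ L

/-- The automorphism `τ` of the number field `L` satisfies `(τ x) ^ q ≡ x ^ q` modulo `I` for all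
integral `x`, where `q = p ^ i ≤ Q` is a power of a prime number `p ≤ Q` (`i = 0` is allowed) and `I`
is an ideal of the ring of integers of `L` containing `p`, of norm at least `B ^ [L : ℚ]`. -/
def InertiaModulo (B : ℝ) (Q : ℕ) {L : Type} [Field L] [NumberField L] (τ : RingAut L) : Prop :=
  ∃ (p i : ℕ) (I : Ideal (𝓞 L)), p.Prime ∧ p ≤ Q ∧ p ^ i ≤ Q ∧ (p : 𝓞 L) ∈ I ∧
    (∀ x : 𝓞 L, (RingOfIntegers.mapRingHom (τ : L →+* L) x) ^ p ^ i - x ^ p ^ i ∈ I) ∧
    B ^ finrank ℚ L ≤ (Ideal.absNorm I : ℝ)

/-- The number `s(P) [L : ℚ(α)]`, for a number field `L` which contains the root `α` of `P`. -/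
noncomputable def expanding (P : ℤ[X]) {L : Type} [Field L] [NumberField L] (α : L) : ℕ :=
  numOutside P * finrank ℚ⟮α⟯ L

/-- The Mahler measure of `P` is `1` or greater than `1 + ε`. -/
def Gap (ε : ℝ) (P : ℤ[X]) : Prop :=
  (P.map (Int.castRingHom ℂ)).mahlerMeasure = 1 ∨
    1 + ε < (P.map (Int.castRingHom ℂ)).mahlerMeasure

/-- The element `φ` of the group of the Galois extension `L / F` is central and satisfies, for every
prime ideal `J` of `F` above the prime number `p`, the congruence `φ x ≡ x ^ q`, `q = p ^ a`, modulo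
at least one prime ideal of `L` above `J`. -/
def CentralPower (p a : ℕ) {F L : Type} [Field F] [NumberField F] [Field L] [NumberField L]
    [Algebra F L] (φ : Gal(L/F)) : Prop :=
  (∀ τ : Gal(L/F), φ * τ = τ * φ) ∧
    ∀ J : Ideal (𝓞 F), J.IsPrime → (p : 𝓞 F) ∈ J → ∃ q : Ideal (𝓞 L), q.IsPrime ∧
      q.under (𝓞 F) = J ∧ ∀ x : 𝓞 L, φ • x - x ^ p ^ a ∈ q

/-- (1) For all `c`, `Q` and `s` there is `ε > 0` such that for every monic irreducible `P ∈ ℤ[X]`
and every number field `L` which contains a root `α` of `P`, such that `s(P) [L : ℚ(α)] ≤ s`, the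
Mahler measure of `P` is `1` or greater than `1 + ε`, if `FrobeniusAbove c Q L` holds or the group
generated by the automorphisms `τ` of `L` with `InertiaAbove c Q τ` has order greater than
`s(P) [L : ℚ(α)]`.

(2) For all `B > 1` and `Q` there is `ε > 0` such that for every monic irreducible `P ∈ ℤ[X]` and
every number field `L` which contains a root `α` of `P` the Mahler measure of `P` is `1` or greater
than `1 + ε`, if the group generated by the automorphisms `τ` of `L` with `InertiaModulo B Q τ` has
order greater than `s(P) [L : ℚ(α)]`.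

(3) If `L / F` is a Galois extension of number fields, and a central element `φ` of the Galois group
satisfies, for every prime ideal `J` of `F` above the prime number `p`, the congruence
`φ x ≡ x ^ q`, `q = p ^ a`, modulo at least one prime ideal of `L` above `J`, then, for all `c ≥ 0` and
`Q ≥ p, q`, `FrobeniusAbove c Q L` holds if `a > 0`, and `InertiaAbove c Q φ` holds if `a = 0`. -/
theorem result :
    (∀ (c : ℝ) (Q s : ℕ), ∃ ε : ℝ, 0 < ε ∧ ∀ P : ℤ[X], P.Monic → Irreducible P →
      ∀ (L : Type) [Field L] [NumberField L] (α : L), aeval α P = 0 → expanding P α ≤ s →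
        (FrobeniusAbove c Q L ∨ expanding P α <
          Nat.card (Subgroup.closure {τ : RingAut L | InertiaAbove c Q τ})) → Gap ε P) ∧
    (∀ (B : ℝ) (Q : ℕ), 1 < B → ∃ ε : ℝ, 0 < ε ∧ ∀ P : ℤ[X], P.Monic → Irreducible P →
      ∀ (L : Type) [Field L] [NumberField L] (α : L), aeval α P = 0 →
        expanding P α < Nat.card (Subgroup.closure {τ : RingAut L | InertiaModulo B Q τ}) →
          Gap ε P) ∧
    ∀ (F L : Type) [Field F] [NumberField F] [Field L] [NumberField L] [Algebra F L]
      [IsGalois F L] (p a : ℕ) (φ : Gal(L/F)), p.Prime → CentralPower p a φ →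
      ∀ (c : ℝ) (Q : ℕ), 0 ≤ c → p ≤ Q → p ^ a ≤ Q →
        (0 < a → FrobeniusAbove c Q L) ∧ (a = 0 → InertiaAbove c Q (φ : L ≃+* L)) := by
  refine ⟨?_, ?_, ?_⟩
  · intro c Q s
    obtain ⟨E1, hE1, h1⟩ := ram_ext_gap Q s 1 c
    obtain ⟨E2, hE2, h2⟩ := inertia_ram_ext_gap Q s 1 c
    obtain ⟨ε1, hε1, hε1', hεE1⟩ := exists_eps E1
    obtain ⟨ε2, hε2, hε2', hεE2⟩ := exists_eps E2
    refine ⟨min ε1 ε2, lt_min hε1 hε2, ?_⟩
    intro P hP hirr L _ _ α hα hs hL
    rcases hL with ⟨p, a, φ, hp, ha, hQ, hbad⟩ | hcard
    · rcases poly_gap E1 ε1 hε1' hεE1 P hP hirr L α hα (fun S A _ hSc hunit hout hnil =>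
        h1 ℚ⟮α⟯ L S A p a φ hp ha hQ ((Nat.mul_le_mul_right _ hSc).trans hs) hbad hunit hout hnil)
        with h | h
      · exact Or.inl h
      · right
        have := min_le_left ε1 ε2
        linarith
    · rcases poly_gap E2 ε2 hε2' hεE2 P hP hirr L α hα (fun S A _ hSc hunit hout hnil =>
        h2 ℚ⟮α⟯ L S A {τ : RingAut L | InertiaAbove c Q τ} (fun τ hτ => hτ)
          ((Nat.mul_le_mul_right _ hSc).trans hs)
          ((Nat.mul_le_mul_right _ hSc).trans_lt hcard) hunit hout hnil)
        with h | h
      · exact Or.inl h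
      · right
        have := min_le_right ε1 ε2
        linarith
  · intro B Q hB
    obtain ⟨E, hE, h1⟩ := inertia_ext_gap B hB Q 1
    obtain ⟨ε, hε, hε', hεE⟩ := exists_eps E
    refine ⟨ε, hε, ?_⟩
    intro P hP hirr L _ _ α hα hcard
    refine poly_gap E ε hε' hεE P hP hirr L α hα (fun S A hS hSc hunit hout hnil => ?_)
    obtain ⟨σ, hσ, l, hl, hle⟩ := h1 ℚ⟮α⟯ L S A {τ : RingAut L | InertiaModulo B Q τ}
      (fun τ hτ => hτ) ((Nat.mul_le_mul_right _ hSc).trans_lt hcard) hunit hout hnil
    refine ⟨σ, hσ, l, hl, ?_⟩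
    by_contra hcon
    push Not at hcon
    have hSpos : 0 < S.card := Finset.card_pos.mpr hS
    have hSd : S.card ≤ finrank ℚ ℚ⟮α⟯ := by
      rw [← Embeddings.card ℚ⟮α⟯ ℂ]
      exact Finset.card_le_univ S
    have e1 : (‖l‖ ^ E) ^ S.card < 2 ^ S.card :=
      pow_lt_pow_left₀ hcon (by positivity) hSpos.ne'
    have e2 : (2 : ℝ) ^ S.card ≤ 2 ^ finrank ℚ ℚ⟮α⟯ := pow_le_pow_right₀ (by norm_num) hSd
    rw [← pow_mul] at e1
    linarith
  · rintro F L _ _ _ _ _ _ p a φ hp ⟨hcomm, h⟩ c Q hc hpQ hQ
    have h0 : badDegree p (p ^ a) (φ : L ≃+* L) = 0 :=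
      badDegree_eq_zero p a hp (φ : L ≃+* L)
        (fun J hJ hpJ x => central_all p a φ hcomm h J hJ hpJ x)
    refine ⟨fun ha => ⟨p, a, (φ : L ≃+* L), hp, ha, hQ, ?_⟩, ?_⟩
    · rw [h0]
      simp only [Nat.cast_zero, zero_mul]
      positivity
    · rintro rfl
      refine ⟨p, hp, hpQ, ?_⟩
      rw [pow_zero] at h0
      have h1 : (badDegree p 1 (φ : L ≃+* L) : ℝ) = 0 := by rw [h0]; simp
      rw [h1, zero_mul]
      positivity

end Pool.Agent.Results.MP_30f4fc_nt.FrobeniusAndInertia
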